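import Mathlib
import Pool.Agent.L5helper7.RT.Defs

/-!
# Gaps between iterated-index elements
-/

set_option autoImplicit false

namespace Pool.Agent.L5helper48.RT

open Pool.Agent.L5helper7.RT

open Classical in
lemma cnt_succ (S : Set ℕ) (m : ℕ) : cnt S (m + 1) = cnt S m + if m + 1 ∈ S then 1 else 0 := by
  unfold cnt
  have h : Finset.Icc 1 (m + 1) = insert (m + 1) (Finset.Icc 1 m) := by
    ext j
    simp only [Finset.mem_Icc, Finset.mem_insert]
    omega
  rw [h, Finset.filter_insert]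
  split_ifs with hm
  · rw [Finset.card_insert_of_notMem]
    intro hh
    have := Finset.mem_Icc.1 (Finset.mem_filter.1 hh).1
    omega
  · rfl

lemma cnt_mono (S : Set ℕ) : Monotone (cnt S) := by
  apply monotone_nat_of_le_succ
  intro m
  rw [cnt_succ]
  omega

lemma cnt_le (S : Set ℕ) (m : ℕ) : cnt S m ≤ m := by
  classical
  unfold cnt
  calc _ ≤ (Finset.Icc 1 m).card := Finset.card_filter_le _ _
    _ = m := by simp

/-- an element of `S` with a given index -/
lemma exists_cnt (S : Set ℕ) (x y j : ℕ) (hx : 1 ≤ x) (h1 : cnt S (x - 1) < j) (h2 : j ≤ cnt S y) :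
    ∃ m, x ≤ m ∧ m ≤ y ∧ m ∈ S ∧ cnt S m = j := by
  classical
  have hex : ∃ m, j ≤ cnt S m := ⟨y, h2⟩
  have hf := Nat.find_spec hex
  have hfy : Nat.find hex ≤ y := Nat.find_min' hex h2
  have hfx : x ≤ Nat.find hex := by
    by_contra hlt
    push Not at hlt
    have := cnt_mono S (show Nat.find hex ≤ x - 1 by omega)
    omega
  have hm := Nat.find_min hex (m := Nat.find hex - 1) (by omega)
  have hs := cnt_succ S (Nat.find hex - 1)
  rw [Nat.sub_add_cancel (by omega)] at hs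
  refine ⟨Nat.find hex, hfx, hfy, ?_, ?_⟩
  · by_contra hn
    rw [if_neg hn] at hs
    omega
  · split_ifs at hs <;> omega

lemma cnt_window (S : Set ℕ) (w x1 n : ℕ) (hx : 2 ≤ x1)
    (hgap : ∀ x, x1 ≤ x → x + w ≤ n → ∃ m, m ∈ S ∧ x ≤ m ∧ m < x + w) (x : ℕ) (hx1 : x1 ≤ x) :
    ∀ t, x + w * t ≤ n → cnt S (x - 1) + t ≤ cnt S (x + w * t - 1)
  | 0, _ => by simp
  | t + 1, ht => by
    have ht' : x + w * t + w ≤ n := by rw [mul_add, mul_one, ← add_assoc] at ht; exact ht
    have ih := cnt_window S w x1 n hx hgap x hx1 t (by omega)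
    obtain ⟨m, hm, h1, h2⟩ := hgap (x + w * t) (by omega) ht'
    have e1 := cnt_mono S (show x + w * t - 1 ≤ m - 1 by omega)
    have e2 := cnt_mono S (show m ≤ x + w * (t + 1) - 1 by rw [mul_add, mul_one]; omega)
    have e3 := cnt_succ S (m - 1)
    rw [Nat.sub_add_cancel (by omega), if_pos hm] at e3
    omega

theorem gapP (S : Set ℕ) (w x1 n : ℕ) (hw : 2 ≤ w) (hx : 2 ≤ x1)
    (hgap : ∀ x, x1 ≤ x → x + w ≤ n → ∃ m, m ∈ S ∧ x ≤ m ∧ m < x + w) :
    (∀ i x, x1 * (2 * w) ^ i ≤ x → x + w ^ (i + 1) ≤ n → ∃ m, IsP S i m ∧ x ≤ m ∧ m < x + w ^ (i + 1)) ∧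
    (∀ y, x1 ≤ y → y ≤ n → y ≤ x1 + w * (cnt S y + 1)) := by
  have key2 : ∀ y, x1 ≤ y → y ≤ n → y ≤ x1 + w * (cnt S y + 1) := by
    intro y hy hyn
    have h1 : w * ((y - x1) / w) ≤ y - x1 := Nat.mul_div_le _ _
    have h2 : y - x1 < w * ((y - x1) / w + 1) := by
      have := Nat.lt_mul_div_succ (y - x1) (show 0 < w by omega)
      exact this
    have h3 := cnt_window S w x1 n hx hgap x1 le_rfl ((y - x1) / w) (by omega)
    have h4 := cnt_mono S (show x1 + w * ((y - x1) / w) - 1 ≤ y by omega)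
    have h5 : w * ((y - x1) / w + 1) ≤ w * (cnt S y + 1) := Nat.mul_le_mul_left _ (by omega)
    omega
  refine ⟨?_, key2⟩
  intro i
  induction i with
  | zero =>
    intro x h1 h2
    rw [pow_zero, mul_one] at h1
    rw [zero_add, pow_one] at h2
    obtain ⟨m, hm, h3, h4⟩ := hgap x h1 h2
    exact ⟨m, ⟨by omega, hm⟩, h3, by rw [zero_add, pow_one]; exact h4⟩
  | succ i ih =>
    intro x h1 h2
    set g := w ^ (i + 1) with hg
    have hg1 : 1 ≤ g := Nat.one_le_pow _ _ (by omega)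
    have e1 : w ^ (i + 1 + 1) = w * g := by rw [hg, pow_succ w (i + 1), mul_comm]
    rw [e1] at h2 ⊢
    set P := x1 * (2 * w) ^ i with hP
    have hPx : x1 ≤ P := Nat.le_mul_of_pos_right _ (pow_pos (by omega) _)
    have e2 : x1 * (2 * w) ^ (i + 1) = 2 * (w * P) := by rw [hP, pow_succ]; ring
    rw [e2] at h1
    have hwP : 2 * P ≤ w * P := Nat.mul_le_mul_right _ hw
    have hgw : g ≤ w * g := Nat.le_mul_of_pos_left _ (by omega)
    have h3 := key2 (x - 1) (by omega) (by omega)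
    have h4 : P ≤ cnt S (x - 1) + 1 := by
      by_contra hlt
      push Not at hlt
      have h5 : w * (cnt S (x - 1) + 1) + w ≤ w * P := by
        calc w * (cnt S (x - 1) + 1) + w = w * (cnt S (x - 1) + 1 + 1) := by ring
          _ ≤ w * P := Nat.mul_le_mul_left _ (by omega)
      omega
    have h5 := cnt_le S (x - 1)
    obtain ⟨j, hj, h6, h7⟩ := ih (cnt S (x - 1) + 1) h4 (by omega)
    have h8 := cnt_window S w x1 n hx hgap x (by omega) g h2
    obtain ⟨m, hm1, hm2, hm3, hm4⟩ := exists_cnt S x (x + w * g - 1) j (by omega) (by omega) (by omega)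
    exact ⟨m, ⟨⟨by omega, hm3⟩, by rw [hm4]; exact hj⟩, hm1, by omega⟩

end Pool.Agent.L5helper48.RT
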