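import Mathlib
import Pool.Agent.L5helper7.RT.Defs
import Pool.Agent.L5helper48.RT.Gap

/-!
# Iterated-index elements: enumeration and description by indices
-/

set_option autoImplicit false

namespace Pool.Agent.L5helper48.RT

open Pool.Agent.L5helper7.RT

open Classical in
lemma cnt_eq_count (S : Set ℕ) (m : ℕ) : cnt S m = Nat.count (fun j => 1 ≤ j ∧ j ∈ S) (m + 1) := by
  induction m with
  | zero =>
    rw [Nat.count_succ]
    simp [cnt]
  | succ m ih =>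
    rw [cnt_succ, ih, Nat.count_succ _ (m + 1)]
    congr 1
    by_cases h : m + 1 ∈ S
    · rw [if_pos h, if_pos ⟨by omega, h⟩]
    · rw [if_neg h, if_neg (fun hh => h hh.2)]

lemma inf_pos (S : Set ℕ) (hS : S.Infinite) : ({m | 1 ≤ m ∧ m ∈ S} : Set ℕ).Infinite := by
  have h : S \ {0} ⊆ {m | 1 ≤ m ∧ m ∈ S} := by
    intro m hm
    have h0 : m ≠ 0 := hm.2
    exact ⟨by omega, hm.1⟩
  exact (hS.sdiff (Set.finite_singleton 0)).mono h

theorem pr_spec (S : Set ℕ) (hS : S.Infinite) (x : ℕ) (hx : 1 ≤ x) : 1 ≤ pr S x ∧ pr S x ∈ S ∧ cnt S (pr S x) = x := by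
  classical
  have h := inf_pos S hS
  have h1 := Nat.nth_mem_of_infinite h (x - 1)
  refine ⟨h1.1, h1.2, ?_⟩
  unfold pr
  rw [cnt_eq_count, Nat.count_succ, if_pos h1, Nat.count_nth_of_infinite h]
  omega

lemma pr_cnt (S : Set ℕ) (m : ℕ) (h1 : 1 ≤ m) (hm : m ∈ S) : pr S (cnt S m) = m ∧ 1 ≤ cnt S m := by
  classical
  have h2 : cnt S m = Nat.count (fun j => 1 ≤ j ∧ j ∈ S) m + 1 := by
    rw [cnt_eq_count, Nat.count_succ, if_pos ⟨h1, hm⟩]
  refine ⟨?_, by omega⟩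
  unfold pr
  rw [h2, Nat.add_sub_cancel]
  exact Nat.nth_count (p := fun j => 1 ≤ j ∧ j ∈ S) ⟨h1, hm⟩

theorem isP_le (S : Set ℕ) (i m : ℕ) (h : IsP S i m) : 1 ≤ m := by
  cases i with
  | zero => exact h.1
  | succ i => exact h.1.1

theorem isP_iff (S : Set ℕ) (hS : S.Infinite) (i m : ℕ) : IsP S i m ↔ ∃ x, 1 ≤ x ∧ iPrime S i x = m := by
  induction i generalizing m with
  | zero =>
    constructor
    · rintro ⟨h1, hm⟩
      have := pr_cnt S m h1 hm
      exact ⟨cnt S m, this.2, this.1⟩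
    · rintro ⟨x, hx, rfl⟩
      have := pr_spec S hS x hx
      exact ⟨this.1, this.2.1⟩
  | succ i ih =>
    constructor
    · rintro ⟨⟨h1, hm⟩, h⟩
      obtain ⟨x, hx, h⟩ := (ih _).1 h
      refine ⟨x, hx, ?_⟩
      have e : iPrime S (i + 1) x = pr S (iPrime S i x) := by
        unfold iPrime
        rw [Function.iterate_succ_apply']
      rw [e, h, (pr_cnt S m h1 hm).1]
    · rintro ⟨x, hx, rfl⟩
      have e : iPrime S (i + 1) x = pr S (iPrime S i x) := by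
        unfold iPrime
        rw [Function.iterate_succ_apply']
      have h1 : IsP S i (iPrime S i x) := (ih _).2 ⟨x, hx, rfl⟩
      have h2 := pr_spec S hS _ (isP_le S i _ h1)
      rw [e]
      exact ⟨⟨h2.1, h2.2.1⟩, by rw [h2.2.2]; exact h1⟩

theorem hasRep_of (S : Set ℕ) (hS : S.Infinite) (a b u v : ℕ) (hu : IsP S a u) (hv : IsP S b v) (h : u ≠ v) :
    HasRep S a b (u + v) := by
  obtain ⟨x, hx, rfl⟩ := (isP_iff S hS a u).1 hu
  obtain ⟨y, hy, rfl⟩ := (isP_iff S hS b v).1 hv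
  exact ⟨x, y, hx, hy, rfl, h⟩

theorem isP_local (S S' : Set ℕ) (M : ℕ) (h : ∀ j, 1 ≤ j → j ≤ M → (j ∈ S ↔ j ∈ S')) (i m : ℕ) (hm : m ≤ M) :
    IsP S i m ↔ IsP S' i m := by
  have hc : ∀ m ≤ M, cnt S m = cnt S' m := by
    classical
    intro m hm
    unfold cnt
    congr 1
    apply Finset.filter_congr
    intro j hj
    have := Finset.mem_Icc.1 hj
    exact h j this.1 (this.2.trans hm)
  induction i generalizing m with
  | zero =>
    constructor
    · rintro ⟨h1, h2⟩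
      exact ⟨h1, (h m h1 hm).1 h2⟩
    · rintro ⟨h1, h2⟩
      exact ⟨h1, (h m h1 hm).2 h2⟩
  | succ i ih =>
    have hcm : cnt S m ≤ M := (cnt_le S m).trans hm
    constructor
    · rintro ⟨⟨h1, h2⟩, h3⟩
      exact ⟨⟨h1, (h m h1 hm).1 h2⟩, by rw [← hc m hm]; exact (ih _ hcm).1 h3⟩
    · rintro ⟨⟨h1, h2⟩, h3⟩
      rw [← hc m hm] at h3
      exact ⟨⟨h1, (h m h1 hm).2 h2⟩, (ih _ hcm).2 h3⟩

lemma pr_mono (S : Set ℕ) (hS : S.Infinite) : Monotone (pr S) := by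
  intro x y hxy
  exact Nat.nth_monotone (inf_pos S hS) (by omega)

theorem iPrime_one_le (S : Set ℕ) (hS : S.Infinite) (i x : ℕ) (hx : 1 ≤ x) : iPrime S i 1 ≤ iPrime S i x :=
  (pr_mono S hS).iterate (i + 1) hx

end Pool.Agent.L5helper48.RT
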