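import Mathlib
import Pool.Agent.L5helper7.RT.Defs
import Pool.Agent.L5helper48.RT.Bridge

/-!
# Growth of the iterated enumeration of a set with at most `C x / log x` elements up to `x`
-/

set_option autoImplicit false

namespace Pool.Agent.L5helper48.RT

open Pool.Agent.L5helper7.RT Filter

lemma pr_gt (S : Set ℕ) (hS : S.Infinite) (h1 : 1 ∉ S) (x : ℕ) (hx : 1 ≤ x) : x < pr S x := by
  obtain ⟨a1, a2, a3⟩ := pr_spec S hS x hx
  have a4 : ∀ m, 1 ≤ m → cnt S m + 1 ≤ m := by
    intro m hm
    induction m, hm using Nat.le_induction with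
    | base =>
      have : cnt S (0 + 1) = cnt S 0 + 0 := by rw [cnt_succ, if_neg (by simpa using h1)]
      have h0 : cnt S 0 ≤ 0 := cnt_le S 0
      rw [zero_add] at this
      omega
    | succ m hm ih =>
      rw [cnt_succ]
      split_ifs <;> omega
  have := a4 _ a1
  omega

lemma mono_from (u : ℕ → ℝ) (K : ℕ) (h : ∀ k ≥ K, u k ≤ u (k + 1)) : ∀ k ≥ K, u K ≤ u k := by
  intro k hk
  induction k, hk using Nat.le_induction with
  | base => exact le_rfl
  | succ k hk ih => exact ih.trans (h k hk)

theorem growth (S : Set ℕ) (hS : S.Infinite) (h1 : 1 ∉ S) (C : ℝ) (x0 : ℕ) (hC : 0 < C)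
    (hcnt : ∀ x : ℕ, x0 ≤ x → (cnt S x : ℝ) ≤ C * x / Real.log x) :
    ∀ᶠ k : ℕ in Filter.atTop, Real.exp (3 / 5 * (k * Real.log k)) ≤ (iPrime S (k - 1) 1 : ℝ) := by
  set X : ℕ → ℕ := fun k => (pr S)^[k] 1 with hX
  have hXs : ∀ k, X (k + 1) = pr S (X k) := fun k => by simp only [hX]; rw [Function.iterate_succ_apply']
  have hXge : ∀ k, k + 1 ≤ X k := by
    intro k
    induction k with
    | zero => simp [hX]
    | succ k ih =>
      rw [hXs]
      have := pr_gt S hS h1 (X k) (by omega)
      omega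
  set a : ℕ → ℝ := fun k => Real.log (X k) with ha
  have hXpos : ∀ k, (0 : ℝ) < X k := fun k => by
    have := hXge k
    have : 0 < X k := by omega
    exact_mod_cast this
  have hage : ∀ k : ℕ, Real.log ((k : ℝ) + 1) ≤ a k := by
    intro k
    apply Real.log_le_log (by positivity)
    exact_mod_cast hXge k
  have hapos : ∀ k : ℕ, 1 ≤ k → 0 < a k := by
    intro k hk
    refine lt_of_lt_of_le (Real.log_pos ?_) (hage k)
    have : (1 : ℝ) ≤ k := by exact_mod_cast hk
    linarith
  -- the recursion
  have hrec : ∀ k : ℕ, 1 ≤ k → x0 ≤ k → a k + Real.log (a k / C) ≤ a (k + 1) := by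
    intro k hk hk0
    have e1 : cnt S (X (k + 1)) = X k := by
      rw [hXs]
      exact (pr_spec S hS (X k) (by have := hXge k; omega)).2.2
    have e2 := hcnt (X (k + 1)) (by have := hXge (k + 1); omega)
    rw [e1] at e2
    have e3 : 0 < a (k + 1) := hapos (k + 1) (by omega)
    have e4 : a k ≤ a (k + 1) := by
      apply Real.log_le_log (hXpos k)
      have := pr_gt S hS h1 (X k) (by have := hXge k; omega)
      rw [← hXs] at this
      exact_mod_cast this.le
    rw [le_div_iff₀ e3] at e2
    have e5 : (X k : ℝ) * a k ≤ C * X (k + 1) := (mul_le_mul_of_nonneg_left e4 (hXpos k).le).trans e2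
    have e6 : (X k : ℝ) * (a k / C) ≤ X (k + 1) := by
      rw [mul_div_assoc', div_le_iff₀ hC]
      linarith
    have e7 : 0 < a k / C := div_pos (hapos k hk) hC
    have e8 := Real.log_le_log (mul_pos (hXpos k) e7) e6
    rw [Real.log_mul (hXpos k).ne' e7.ne'] at e8
    exact e8
  have hlog : Tendsto (fun k : ℕ => Real.log ((k : ℝ) + 1)) atTop atTop :=
    Real.tendsto_log_atTop.comp (tendsto_atTop_add_const_right _ _ tendsto_natCast_atTop_atTop)
  have hlogk : Tendsto (fun k : ℕ => Real.log (k : ℝ)) atTop atTop :=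
    Real.tendsto_log_atTop.comp tendsto_natCast_atTop_atTop
  -- eventually the increments are at least 2
  have hA : ∀ᶠ k : ℕ in atTop, a k + 2 ≤ a (k + 1) := by
    filter_upwards [hlog.eventually_ge_atTop (C * Real.exp 2), eventually_ge_atTop 1, eventually_ge_atTop x0] with k h2 h3 h4
    have h5 := hrec k h3 h4
    have h6 : 2 ≤ Real.log (a k / C) := by
      rw [Real.le_log_iff_exp_le (div_pos (hapos k h3) hC), le_div_iff₀ hC]
      have := hage k
      linarith
    linarith
  obtain ⟨K, hK⟩ := eventually_atTop.1 hA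
  have hB := mono_from (fun k => a k - 2 * k) K (fun k hk => by
    have := hK k hk
    push_cast
    linarith)
  have hB2 : ∀ᶠ k : ℕ in atTop, (k : ℝ) ≤ a k := by
    filter_upwards [eventually_ge_atTop K, (tendsto_natCast_atTop_atTop (R := ℝ)).eventually_ge_atTop (-(a K - 2 * K))] with k h2 h3
    have := hB k h2
    linarith
  -- the increments are at least `4/5 (log (k+1) + 1)`
  have hD : ∀ᶠ k : ℕ in atTop, a k - 4 / 5 * (k * Real.log k) ≤ a (k + 1) - 4 / 5 * (((k : ℝ) + 1) * Real.log ((k : ℝ) + 1)) := by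
    filter_upwards [hB2, eventually_ge_atTop 1, eventually_ge_atTop x0,
      hlogk.eventually_ge_atTop (5 * (4 / 5 * (1 + Real.log 2) + Real.log C))] with k h2 h3 h4 h5
    have h6 := hrec k h3 h4
    have hk1 : (1 : ℝ) ≤ k := by exact_mod_cast h3
    have hk0 : (0 : ℝ) < k := by linarith
    have h7 : Real.log k - Real.log C ≤ Real.log (a k / C) := by
      rw [Real.log_div (hapos k h3).ne' hC.ne']
      have := Real.log_le_log hk0 h2
      linarith
    have h8 : Real.log ((k : ℝ) + 1) ≤ Real.log 2 + Real.log k := by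
      rw [← Real.log_mul (by norm_num) hk0.ne']
      apply Real.log_le_log (by positivity)
      linarith
    have h9 : (k : ℝ) * Real.log ((k : ℝ) + 1) - k * Real.log k ≤ 1 := by
      have : Real.log ((k : ℝ) + 1) - Real.log k = Real.log (1 + 1 / k) := by
        rw [← Real.log_div (by positivity) hk0.ne']
        congr 1
        field_simp
      have h10 := Real.log_le_sub_one_of_pos (show (0 : ℝ) < 1 + 1 / k by positivity)
      have h11 : (k : ℝ) * (Real.log ((k : ℝ) + 1) - Real.log k) ≤ k * (1 / k) := by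
        apply mul_le_mul_of_nonneg_left _ hk0.le
        rw [this]; linarith
      have h12 : (k : ℝ) * (1 / k) = 1 := by field_simp
      linarith
    have h13 : ((k : ℝ) + 1) * Real.log ((k : ℝ) + 1) = k * Real.log ((k : ℝ) + 1) + Real.log ((k : ℝ) + 1) := by ring
    linarith
  obtain ⟨K2, hK2⟩ := eventually_atTop.1 hD
  have hE := mono_from (fun k => a k - 4 / 5 * (k * Real.log k)) K2 (fun k hk => by
    have := hK2 k hk
    push_cast
    exact this)
  filter_upwards [eventually_ge_atTop K2, eventually_ge_atTop 1, hlogk.eventually_ge_atTop 5,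
    (tendsto_natCast_atTop_atTop (R := ℝ)).eventually_ge_atTop (-(a K2 - 4 / 5 * (K2 * Real.log K2)))] with k h2 h3 h4 h5
  have h6 := hE k h2
  have hk0 : (0 : ℝ) ≤ k := Nat.cast_nonneg _
  have h7 : (k : ℝ) * 5 ≤ k * Real.log k := mul_le_mul_of_nonneg_left h4 hk0
  have h8 : 3 / 5 * (k * Real.log k) ≤ a k := by linarith
  have h9 : iPrime S (k - 1) 1 = X k := by
    unfold iPrime
    simp only [hX]
    rw [Nat.sub_add_cancel h3]
  rw [h9]
  calc Real.exp (3 / 5 * (k * Real.log k)) ≤ Real.exp (a k) := Real.exp_le_exp.2 h8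
    _ = X k := Real.exp_log (hXpos k)

end Pool.Agent.L5helper48.RT
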