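import Mathlib
import Pool.Agent.L5helper7.RT.Defs

/-!
# Lower bound for the number of successes of independent coins to hit a syndetic set
-/

set_option autoImplicit false

namespace Pool.Agent.L5helper48.RT

open Pool.Agent.L5helper7.RT

lemma AO_comm (a r : ℝ) (φ : ℕ → ℝ) : AO a (AO r φ) = AO r (AO a φ) := by
  funext x
  simp only [AO]
  ring

lemma Ec_AO (ρ : ℕ → ℝ) (r : ℝ) (φ : ℕ → ℝ) : ∀ s k, Ec ρ s k (AO r φ) = AO r (Ec ρ s k φ)
  | s, 0 => by funext x; simp only [Ec]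
  | s, k + 1 => by
    have h : ∀ ψ : ℕ → ℝ, Ec ρ s (k + 1) ψ = AO (ρ (s + 1)) (Ec ρ (s + 1) k ψ) := fun ψ => by
      funext x; rw [Ec]
    rw [h, h, Ec_AO ρ r φ (s + 1) k, AO_comm]

lemma Ec_two (ρ : ℕ → ℝ) (s k : ℕ) (φ : ℕ → ℝ) (h : ρ (s + 2) = 0) (x : ℕ) :
    Ec ρ s (k + 2) φ x = AO (ρ (s + 1)) (Ec ρ (s + 2) k φ) x := by
  have e : ∀ y, Ec ρ (s + 1) (k + 1) φ y = Ec ρ (s + 2) k φ y := by
    intro y
    rw [Ec, AO]
    rw [show s + 1 + 1 = s + 2 from rfl, h]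
    ring
  rw [Ec, AO, AO, e, e]

/-- lower bound for the probability of at least `K` coins with probability `1 / 2` -/
noncomputable def BB (q : ℝ) : ℕ → ℕ → ℝ
  | _, 0 => 1
  | 0, _ + 1 => 0
  | L + 1, K + 1 => 2 * q * BB q L K + (1 - 2 * q) * BB q L (K + 1)

lemma BB_ge (q : ℝ) (hq0 : 0 < q) (hq1 : q ≤ 1 / 2) : ∀ L K, 1 - 2 ^ K * (1 - q) ^ L ≤ BB q L K
  | L, 0 => by
    rw [BB]
    have : (0 : ℝ) ≤ (1 - q) ^ L := pow_nonneg (by linarith) _
    linarith
  | 0, K + 1 => by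
    rw [BB]
    have : (1 : ℝ) ≤ 2 ^ (K + 1) := one_le_pow₀ (by norm_num)
    linarith
  | L + 1, K + 1 => by
    have h1 := BB_ge q hq0 hq1 L K
    have h2 := BB_ge q hq0 hq1 L (K + 1)
    rw [BB]
    have h3 : 2 * q * (1 - 2 ^ K * (1 - q) ^ L) ≤ 2 * q * BB q L K := mul_le_mul_of_nonneg_left h1 (by linarith)
    have h4 : (1 - 2 * q) * (1 - 2 ^ (K + 1) * (1 - q) ^ L) ≤ (1 - 2 * q) * BB q L (K + 1) :=
      mul_le_mul_of_nonneg_left h2 (by linarith)
    have h5 : (2 : ℝ) ^ (K + 1) = 2 * 2 ^ K := by ring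
    have h6 : (1 - q) ^ (L + 1) = (1 - q) ^ L * (1 - q) := by ring
    rw [h5] at h4
    rw [h5, h6]
    nlinarith

lemma BB_nonneg (q : ℝ) (hq0 : 0 < q) (hq1 : q ≤ 1 / 2) : ∀ L K, 0 ≤ BB q L K
  | L, 0 => by rw [BB]; norm_num
  | 0, K + 1 => by rw [BB]
  | L + 1, K + 1 => by
    have h1 := BB_nonneg q hq0 hq1 L K
    have h2 := BB_nonneg q hq0 hq1 L (K + 1)
    rw [BB]
    have : 0 ≤ 1 - 2 * q := by linarith
    positivity

lemma main_claim (ρ : ℕ → ℝ) (q : ℝ) (hq0 : 0 < q) (hq1 : q ≤ 1 / 2) (β : ℝ) (hβ : 0 ≤ β) :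
    ∀ (L s : ℕ) (_ : ∀ m, m < L → q ≤ ρ (s + 2 * m + 1) ∧ ρ (s + 2 * m + 1) ≤ 1 - q ∧ ρ (s + 2 * m + 2) = 0)
      (φ : ℕ → ℝ) (_ : ∀ z, 0 ≤ φ z) (K x : ℕ)
      (_ : ∀ j, K ≤ j → j ≤ L → ∀ t, t ≤ L - j → β ≤ (AO (1 / 2))^[j] φ (x + t)),
      β * BB q L K ≤ Ec ρ s (2 * L) φ x
  | 0, s, _, φ, hφ, K, x, hW => by
    rcases K with _ | K
    · rw [BB, mul_one]
      have := hW 0 le_rfl le_rfl 0 le_rfl
      simpa [Ec] using this
    · rw [BB, mul_zero]
      simpa [Ec] using hφ x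
  | L + 1, s, hρ, φ, hφ, K, x, hW => by
    have h0 := hρ 0 (by omega)
    have hρ' : ∀ m, m < L → q ≤ ρ (s + 2 + 2 * m + 1) ∧ ρ (s + 2 + 2 * m + 1) ≤ 1 - q ∧ ρ (s + 2 + 2 * m + 2) = 0 := by
      intro m hm
      have := hρ (m + 1) (by omega)
      rw [show s + 2 * (m + 1) + 1 = s + 2 + 2 * m + 1 by ring, show s + 2 * (m + 1) + 2 = s + 2 + 2 * m + 2 by ring] at this
      exact this
    rw [show 2 * (L + 1) = 2 * L + 2 by ring, Ec_two ρ s (2 * L) φ (by simpa using h0.2.2)]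
    have e1 : q ≤ ρ (s + 1) := by simpa using h0.1
    have e2 : ρ (s + 1) ≤ 1 - q := by simpa using h0.2.1
    set r := ρ (s + 1) with hr
    rcases K with _ | K
    · have a1 := main_claim ρ q hq0 hq1 β hβ L (s + 2) hρ' φ hφ 0 x
        (fun j hj hjL t ht => hW j hj (by omega) t (by omega))
      have a2 := main_claim ρ q hq0 hq1 β hβ L (s + 2) hρ' φ hφ 0 (x + 1)
        (fun j hj hjL t ht => by
          have := hW j hj (by omega) (t + 1) (by omega)
          rw [show x + 1 + t = x + (t + 1) by ring]; exact this)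
      rw [BB, mul_one] at a1 a2 ⊢
      rw [AO]
      have a3 : r * β ≤ r * Ec ρ (s + 2) (2 * L) φ (x + 1) := mul_le_mul_of_nonneg_left a2 (by linarith)
      have a4 : (1 - r) * β ≤ (1 - r) * Ec ρ (s + 2) (2 * L) φ x := mul_le_mul_of_nonneg_left a1 (by linarith)
      linarith
    · have a1 := main_claim ρ q hq0 hq1 β hβ L (s + 2) hρ' φ hφ (K + 1) x
        (fun j hj hjL t ht => hW j hj (by omega) t (by omega))
      have a2 := main_claim ρ q hq0 hq1 β hβ L (s + 2) hρ' φ hφ (K + 1) (x + 1)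
        (fun j hj hjL t ht => by
          have := hW j hj (by omega) (t + 1) (by omega)
          rw [show x + 1 + t = x + (t + 1) by ring]; exact this)
      have hφ' : ∀ z, 0 ≤ AO (1 / 2) φ z := by
        intro z
        have := hφ z
        have := hφ (z + 1)
        rw [AO]
        linarith
      have a3 := main_claim ρ q hq0 hq1 β hβ L (s + 2) hρ' (AO (1 / 2) φ) hφ' K x
        (fun j hj hjL t ht => by
          have := hW (j + 1) (by omega) (by omega) t (by omega)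
          rw [Function.iterate_succ_apply] at this
          exact this)
      rw [Ec_AO] at a3
      rw [BB]
      rw [AO] at a3 ⊢
      have a4 : (r - q) * (β * BB q L (K + 1)) ≤ (r - q) * Ec ρ (s + 2) (2 * L) φ (x + 1) :=
        mul_le_mul_of_nonneg_left a2 (by linarith)
      have a5 : (1 - r - q) * (β * BB q L (K + 1)) ≤ (1 - r - q) * Ec ρ (s + 2) (2 * L) φ x :=
        mul_le_mul_of_nonneg_left a1 (by linarith)
      have a6 : 2 * q * (β * BB q L K) ≤ 2 * q * (1 / 2 * Ec ρ (s + 2) (2 * L) φ (x + 1) + (1 - 1 / 2) * Ec ρ (s + 2) (2 * L) φ x) :=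
        mul_le_mul_of_nonneg_left a3 (by linarith)
      nlinarith

lemma W_ge (φ : ℕ → ℝ) (hφ : ∀ z, 0 ≤ φ z) : ∀ (j i z : ℕ),
    0 ≤ (AO (1 / 2))^[j] φ z ∧ (j.choose i : ℝ) / 2 ^ j * φ (z + i) ≤ (AO (1 / 2))^[j] φ z
  | 0, i, z => by
    refine ⟨by simpa using hφ z, ?_⟩
    rcases i with _ | i
    · simp
    · simpa using hφ z
  | j + 1, i, z => by
    rw [Function.iterate_succ_apply', AO]
    have a1 := (W_ge φ hφ j 0 z).1
    have a2 := (W_ge φ hφ j 0 (z + 1)).1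
    refine ⟨by linarith, ?_⟩
    rcases i with _ | i
    · have a3 := (W_ge φ hφ j 0 z).2
      simp only [Nat.choose_zero_right, Nat.cast_one, add_zero] at a3 ⊢
      have : (1 : ℝ) / 2 ^ (j + 1) * φ z = 1 / 2 * (1 / 2 ^ j * φ z) := by rw [pow_succ]; ring
      rw [this]
      linarith
    · have a3 := (W_ge φ hφ j (i + 1) z).2
      have a4 := (W_ge φ hφ j i (z + 1)).2
      rw [show z + 1 + i = z + (i + 1) by ring] at a4
      have : (((j + 1).choose (i + 1) : ℕ) : ℝ) / 2 ^ (j + 1) * φ (z + (i + 1)) =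
          1 / 2 * ((j.choose i : ℝ) / 2 ^ j * φ (z + (i + 1))) + (1 - 1 / 2) * ((j.choose (i + 1) : ℝ) / 2 ^ j * φ (z + (i + 1))) := by
        rw [Nat.choose_succ_succ, pow_succ]
        push_cast
        field_simp
        ring
      rw [this]
      linarith

lemma choose_near (j D : ℕ) (hD : 1 ≤ D) (hj : 8 * D ^ 2 + 2 ≤ j) : ∀ d, d ≤ D →
    (j.choose (j / 2) : ℝ) * (1 - 2 * D * d / ((j / 2 : ℕ) : ℝ)) ≤ (j.choose (j / 2 + d) : ℝ)
  | 0, _ => by simp
  | d + 1, hd => by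
    have ih := choose_near j D hD hj d (by omega)
    set h := j / 2 with hh
    have hh1 : 4 * D ^ 2 + 1 ≤ h := by omega
    have hhD : D ≤ h := by nlinarith
    have hj2 : 2 * h ≤ j := by omega
    have e1 : j.choose (h + d + 1) * (h + d + 1) = j.choose (h + d) * (j - (h + d)) := Nat.choose_succ_right_eq j (h + d)
    have hpos : (0 : ℝ) < h := by
      have : 0 < h := by omega
      exact_mod_cast this
    have hDr : (1 : ℝ) ≤ D := by exact_mod_cast hD
    have hdD : (d : ℝ) + 1 ≤ D := by exact_mod_cast hd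
    have hle : h + d ≤ j := by omega
    have e2 : (j.choose (h + d + 1) : ℝ) * (h + d + 1) = (j.choose (h + d) : ℝ) * (j - (h + d)) := by
      have := congrArg (Nat.cast : ℕ → ℝ) e1
      rw [Nat.cast_mul, Nat.cast_mul, Nat.cast_sub hle] at this
      push_cast at this
      exact this
    have e3 : (2 : ℝ) * h ≤ j := by exact_mod_cast hj2
    have hC : (0 : ℝ) ≤ (j.choose (h + d) : ℝ) := Nat.cast_nonneg _
    have hC0 : (0 : ℝ) ≤ (j.choose h : ℝ) := Nat.cast_nonneg _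
    have hd0 : (0 : ℝ) ≤ d := Nat.cast_nonneg _
    -- the ratio of consecutive coefficients
    have e4 : (1 - 2 * D / (h : ℝ)) * (h + d + 1) ≤ (j : ℝ) - (h + d) := by
      have : (1 - 2 * D / (h : ℝ)) * (h + d + 1) = h + d + 1 - 2 * D * ((h + d + 1) / h) := by
        field_simp
      rw [this]
      have h1 : (1 : ℝ) ≤ (h + d + 1) / h := by
        rw [le_div_iff₀ hpos]; linarith
      nlinarith
    have e5 : (j.choose (h + d) : ℝ) * (1 - 2 * D / (h : ℝ)) ≤ (j.choose (h + d + 1) : ℝ) := by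
      have hpos2 : (0 : ℝ) < h + d + 1 := by linarith
      have : (j.choose (h + d) : ℝ) * ((1 - 2 * D / (h : ℝ)) * (h + d + 1)) ≤ (j.choose (h + d + 1) : ℝ) * (h + d + 1) := by
        rw [e2]
        exact mul_le_mul_of_nonneg_left e4 hC
      rw [← mul_assoc] at this
      exact le_of_mul_le_mul_right this hpos2
    have e6 : (0 : ℝ) ≤ 1 - 2 * D / (h : ℝ) := by
      rw [sub_nonneg, div_le_one hpos]
      have : 2 * D ≤ h := by nlinarith
      exact_mod_cast this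
    have e7 : (j.choose h : ℝ) * (1 - 2 * D * d / (h : ℝ)) * (1 - 2 * D / (h : ℝ)) ≤ (j.choose (h + d) : ℝ) * (1 - 2 * D / (h : ℝ)) :=
      mul_le_mul_of_nonneg_right ih e6
    have e8 : (j.choose h : ℝ) * (1 - 2 * D * ((d + 1 : ℕ) : ℝ) / (h : ℝ)) ≤
        (j.choose h : ℝ) * (1 - 2 * D * d / (h : ℝ)) * (1 - 2 * D / (h : ℝ)) := by
      have e10 : 1 - 2 * D * ((d + 1 : ℕ) : ℝ) / (h : ℝ) ≤ (1 - 2 * D * d / (h : ℝ)) * (1 - 2 * D / (h : ℝ)) := by
        push_cast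
        have : (0 : ℝ) ≤ (2 * D * d / (h : ℝ)) * (2 * D / (h : ℝ)) := by positivity
        have e9 : 2 * (D : ℝ) * (d + 1) / h = 2 * D * d / h + 2 * D / h := by ring
        rw [e9]
        nlinarith
      calc _ ≤ (j.choose h : ℝ) * ((1 - 2 * D * d / (h : ℝ)) * (1 - 2 * D / (h : ℝ))) :=
            mul_le_mul_of_nonneg_left e10 hC0
        _ = _ := by ring
    exact (e8.trans e7).trans e5

lemma choose_mid (j : ℕ) : (2 : ℝ) ^ j / (j + 1) ≤ (j.choose (j / 2) : ℝ) := by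
  have h1 : 2 ^ j ≤ (j + 1) * j.choose (j / 2) := by
    rw [← Nat.sum_range_choose]
    calc ∑ m ∈ Finset.range (j + 1), j.choose m ≤ ∑ m ∈ Finset.range (j + 1), j.choose (j / 2) :=
          Finset.sum_le_sum (fun m _ => Nat.choose_le_middle m j)
      _ = _ := by rw [Finset.sum_const, Finset.card_range, smul_eq_mul]
  have h2 : ((2 : ℝ)) ^ j ≤ (j + 1) * (j.choose (j / 2) : ℝ) := by exact_mod_cast h1
  rw [div_le_iff₀ (by positivity)]
  linarith

open Classical in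
theorem ec_lower (ρ : ℕ → ℝ) (q : ℝ) (hq0 : 0 < q) (hq1 : q ≤ 1 / 2) (s L D : ℕ) (hs : Even s) (hD : 1 ≤ D)
    (hodd : ∀ m, s < m → m ≤ s + 2 * L → Odd m → q ≤ ρ m ∧ ρ m ≤ 1 - q)
    (heven : ∀ m, s < m → m ≤ s + 2 * L → Even m → ρ m = 0) (J : ℕ → Prop) (x : ℕ)
    (hJ : ∀ y, x ≤ y → y ≤ x + L → ∃ j, J j ∧ y ≤ j ∧ j < y + D)
    (hL : (8 * (D : ℝ) ^ 2 + 3) ≤ q * L) :
    1 / (4 * ((L : ℝ) + 1)) ≤ Ec ρ s (2 * L) (fun t => if J (t + 1) then 1 else 0) x := by
  set φ : ℕ → ℝ := fun t => if J (t + 1) then 1 else 0 with hφdef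
  have hφ : ∀ z, 0 ≤ φ z := by
    intro z
    simp only [hφdef]
    split_ifs <;> norm_num
  have hLpos : (0 : ℝ) < (L : ℝ) + 1 := by positivity
  have hW : ∀ j, 8 * D ^ 2 + 2 ≤ j → j ≤ L → ∀ t, t ≤ L - j →
      1 / (2 * ((L : ℝ) + 1)) ≤ (AO (1 / 2))^[j] φ (x + t) := by
    intro j hj hjL t ht
    set h := j / 2 with hh
    have hh1 : 4 * D ^ 2 + 1 ≤ h := by omega
    have hD2 : D ≤ D ^ 2 := by nlinarith
    obtain ⟨m, hm, hm1, hm2⟩ := hJ (x + t + h + 1) (by omega) (by omega)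
    obtain ⟨d, rfl⟩ : ∃ d, m = x + t + h + 1 + d := ⟨m - (x + t + h + 1), by omega⟩
    have hdD : d < D := by omega
    have a1 := (W_ge φ hφ j (h + d) (x + t)).2
    have a2 : φ (x + t + (h + d)) = 1 := by
      simp only [hφdef]
      rw [if_pos]
      rw [show x + t + (h + d) + 1 = x + t + h + 1 + d by ring]
      exact hm
    rw [a2, mul_one] at a1
    refine le_trans ?_ a1
    have a3 := choose_near j D hD hj d hdD.le
    rw [← hh] at a3
    have a4 := choose_mid j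
    rw [← hh] at a4
    have hpos : (0 : ℝ) < h := by
      have : 0 < h := by omega
      exact_mod_cast this
    have hd1 : (d : ℝ) ≤ D := by exact_mod_cast hdD.le
    have hD0 : (0 : ℝ) ≤ D := Nat.cast_nonneg _
    have hh2 : 4 * (D : ℝ) ^ 2 ≤ h := by
      have : 4 * D ^ 2 ≤ h := by omega
      exact_mod_cast this
    have a5 : (1 : ℝ) / 2 ≤ 1 - 2 * D * d / h := by
      have : 2 * (D : ℝ) * d / h ≤ 1 / 2 := by
        rw [div_le_iff₀ hpos]
        nlinarith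
      linarith
    have hC0 : (0 : ℝ) ≤ (j.choose h : ℝ) := Nat.cast_nonneg _
    have a6 : (j.choose h : ℝ) * (1 / 2) ≤ (j.choose (h + d) : ℝ) := (mul_le_mul_of_nonneg_left a5 hC0).trans a3
    have h2j : (0 : ℝ) < 2 ^ j := by positivity
    have hj1 : (0 : ℝ) < (j : ℝ) + 1 := by positivity
    have hjL' : (j : ℝ) ≤ L := by exact_mod_cast hjL
    calc 1 / (2 * ((L : ℝ) + 1)) ≤ 1 / (2 * ((j : ℝ) + 1)) := by
          apply one_div_le_one_div_of_le (by positivity); linarith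
      _ = (2 ^ j / ((j : ℝ) + 1)) * (1 / 2) / 2 ^ j := by field_simp
      _ ≤ (j.choose h : ℝ) * (1 / 2) / 2 ^ j := by
          apply div_le_div_of_nonneg_right _ h2j.le
          exact mul_le_mul_of_nonneg_right a4 (by norm_num)
      _ ≤ _ := div_le_div_of_nonneg_right a6 h2j.le
  have hρ : ∀ m, m < L → q ≤ ρ (s + 2 * m + 1) ∧ ρ (s + 2 * m + 1) ≤ 1 - q ∧ ρ (s + 2 * m + 2) = 0 := by
    intro m hm
    have b1 := hodd (s + 2 * m + 1) (by omega) (by omega) (by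
      rw [Nat.odd_add_one, Nat.not_odd_iff_even]
      exact hs.add (even_two_mul m))
    have b2 := heven (s + 2 * m + 2) (by omega) (by omega) (by
      exact (hs.add (even_two_mul m)).add (by decide))
    exact ⟨b1.1, b1.2, b2⟩
  have key := main_claim ρ q hq0 hq1 (1 / (2 * ((L : ℝ) + 1))) (by positivity) L s hρ φ hφ (8 * D ^ 2 + 2) x hW
  refine le_trans ?_ key
  have hB := BB_ge q hq0 hq1 L (8 * D ^ 2 + 2)
  have hB2 : (2 : ℝ) ^ (8 * D ^ 2 + 2) * (1 - q) ^ L ≤ 1 / 2 := by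
    have c1 : (1 - q) ^ L ≤ Real.exp (-q) ^ L := by
      apply pow_le_pow_left₀ (by linarith)
      have := Real.add_one_le_exp (-q)
      linarith
    have c2 : Real.exp (-q) ^ L = Real.exp (-(q * L)) := by
      rw [← Real.exp_nat_mul]; ring_nf
    have c3 : Real.exp (-(q * L)) ≤ Real.exp (-((8 * D ^ 2 + 2 : ℕ) + 1 : ℝ)) := by
      apply Real.exp_le_exp.2
      push_cast
      linarith
    have c4 : Real.exp (-((8 * D ^ 2 + 2 : ℕ) + 1 : ℝ)) ≤ (1 / 2) ^ (8 * D ^ 2 + 2 + 1) := by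
      have : Real.exp (-((8 * D ^ 2 + 2 : ℕ) + 1 : ℝ)) = Real.exp (-1) ^ (8 * D ^ 2 + 2 + 1) := by
        rw [← Real.exp_nat_mul]; push_cast; ring_nf
      rw [this]
      apply pow_le_pow_left₀ (Real.exp_pos _).le
      rw [Real.exp_neg, one_div]
      apply inv_anti₀ (by norm_num)
      have := Real.add_one_le_exp (1 : ℝ)
      linarith
    calc (2 : ℝ) ^ (8 * D ^ 2 + 2) * (1 - q) ^ L ≤ 2 ^ (8 * D ^ 2 + 2) * (1 / 2) ^ (8 * D ^ 2 + 2 + 1) := by
          apply mul_le_mul_of_nonneg_left _ (by positivity)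
          rw [c2] at c1
          exact c1.trans (c3.trans c4)
      _ = 1 / 2 := by
          rw [pow_succ (1 / 2 : ℝ), ← mul_assoc, ← mul_pow]
          norm_num
  have hB3 : (1 : ℝ) / 2 ≤ BB q L (8 * D ^ 2 + 2) := by linarith
  calc 1 / (4 * ((L : ℝ) + 1)) = 1 / (2 * ((L : ℝ) + 1)) * (1 / 2) := by field_simp; norm_num
    _ ≤ _ := mul_le_mul_of_nonneg_left hB3 (by positivity)

end Pool.Agent.L5helper48.RT
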